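import Pool.Agent.helper19.FK.Spec
import Pool.Agent.helper63.HF.CLZ

set_option autoImplicit false

namespace Pool.Agent.FK

open Finset Pool.Agent.AT
open Pool.Agent.HF (Om CLZ_adm CLZ_J)

theorem CLG : CLG_stmt := by
  classical
  intro hQ n B η hn hB hη
  obtain ⟨C, δ, hC, hδ, -, hQ⟩ := hQ (n * B) (Nat.mul_pos hn hB)
  obtain ⟨L, hL1, hL⟩ : ∃ L : ℕ, 1 ≤ L ∧ C * (L : ℝ) ^ (-δ) ≤ η := by
    have h1 : Filter.Tendsto (fun L : ℕ => C * (L : ℝ) ^ (-δ)) Filter.atTop (nhds (C * 0)) :=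
      ((tendsto_rpow_neg_atTop hδ).comp tendsto_natCast_atTop_atTop).const_mul C
    rw [mul_zero] at h1
    obtain ⟨L, h2, h3⟩ := ((h1.eventually (gt_mem_nhds hη)).and
      (Filter.eventually_ge_atTop 1)).exists
    exact ⟨L, h3, h2.le⟩
  refine ⟨L, ?_⟩
  intro R hLR fm hfinj hfm0 hadm0
  obtain ⟨σ, hσ⟩ : ∃ σ : Fin (n * B) ≃ Fin n × Fin B, σ = finProdFinEquiv.symm := ⟨_, rfl⟩
  obtain ⟨F, hFdef⟩ : ∃ F : Fin (n * B) → Finset (ℕ × ℤ), F = fun i => (range R).image (fm (σ i).2) := ⟨_, rfl⟩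
  have hF : ∀ i, #(F i) = R := by
    intro i
    rw [hFdef]
    dsimp only
    rw [Finset.card_image_of_injective _ (hfinj _), card_range]
  have h1 := hQ F L hL1 (fun i => by rw [hF]; exact hLR) (by
    intro i x hx
    rw [hFdef] at hx
    obtain ⟨u, -, rfl⟩ := Finset.mem_image.1 hx
    exact hfm0 _ _)
  obtain ⟨f, hf⟩ : ∃ f : Om n B R → Fin (n * B) → ℕ × ℤ, f = fun ω i => fm (σ i).2 (ω (σ i).1 (σ i).2 : ℕ) := ⟨_, rfl⟩
  have hadm : ∀ ω, Adm (f ω) := by
    intro ω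
    rw [hf]
    exact hadm0 (fun i => (σ i).2) (fun i => (ω (σ i).1 (σ i).2 : ℕ))
  have h2 : #{ω : Om n B R | ¬ ∃ J : Finset (Fin n × Fin B), (1 / 4 + 1 / 500000) * ((n : ℝ) * B) ≤ #J ∧
    ∀ x ∈ J, ∀ y ∈ J, x.2 ≠ y.2 → (fm x.2 ((ω x.1 x.2 : Fin R) : ℕ) ≠ fm y.2 ((ω y.1 y.2 : Fin R) : ℕ) →
      Pair (fm x.2 ((ω x.1 x.2 : Fin R) : ℕ)) (fm y.2 ((ω y.1 y.2 : Fin R) : ℕ)))} ≤
      #{f ∈ Fintype.piFinset F | Adm f ∧ ¬ Many f} := by
    refine Finset.card_le_card_of_injOn f ?_ ?_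
    · intro ω hω
      have hω' := (Finset.mem_filter.1 (Finset.mem_coe.1 hω)).2
      refine Finset.mem_coe.2 (Finset.mem_filter.2 ⟨?_, hadm ω, ?_⟩)
      · rw [Fintype.mem_piFinset]
        intro i
        rw [hFdef, hf]
        exact Finset.mem_image_of_mem _ (Finset.mem_range.2 (ω (σ i).1 (σ i).2).2)
      · intro hM
        obtain ⟨J, hJ1, hJ2⟩ := CLZ_J (n * B) (f ω) hM
        have hpair : ∀ i ∈ J, ∀ j ∈ J, f ω i ≠ f ω j → Pair (f ω i) (f ω j) := by
          intro i hi j hj hij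
          refine PRT (f ω i) (f ω j) ?_ ?_ hij ?_ (hJ2 i hi j hj)
          · rw [hf]
            exact hfm0 _ _
          · rw [hf]
            exact hfm0 _ _
          · intro p hp
            obtain ⟨m, hm⟩ := hadm ω p hp
            refine ⟨m, fun t => ?_⟩
            fin_cases t
            · exact hm i
            · exact hm j
        refine hω' ⟨J.map σ.toEmbedding, ?_, ?_⟩
        · rw [Finset.card_map]
          have h3 : ((n * B : ℕ) : ℝ) = (n : ℝ) * B := by push_cast; ring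
          rw [h3] at hJ1
          exact hJ1.le
        · intro x hx y hy _
          obtain ⟨i, hi, rfl⟩ := Finset.mem_map.1 hx
          obtain ⟨j, hj, rfl⟩ := Finset.mem_map.1 hy
          have := hpair i hi j hj
          rw [hf] at this
          exact this
    · intro ω _ ω' _ h
      funext x β
      have h3 := congrFun h (σ.symm (x, β))
      rw [hf] at h3
      dsimp only at h3
      rw [Equiv.apply_symm_apply] at h3
      exact Fin.ext (hfinj _ h3)
  refine le_trans (Nat.cast_le.2 h2) (h1.trans ?_)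
  have h3 : ∏ i : Fin (n * B), (#(F i) : ℝ) = (R : ℝ) ^ (n * B) := by
    rw [prod_congr rfl (fun i _ => by rw [hF i]), prod_const, card_univ, Fintype.card_fin]
  rw [h3]
  calc C * (R : ℝ) ^ (n * B) * (L : ℝ) ^ (-δ) = C * (L : ℝ) ^ (-δ) * (R : ℝ) ^ (n * B) := by ring
    _ ≤ η * (R : ℝ) ^ (n * B) := mul_le_mul_of_nonneg_right hL (by positivity)

end Pool.Agent.FK
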