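import Pool.Agent.helper19.FK.Spec
import Pool.Agent.helper77.HF.GEZ

set_option autoImplicit false

namespace Pool.Agent.FK

open Finset Pool.Agent.SK
open Pool.Agent.HF (cz GEZ)

theorem LOS : LOS_stmt := by
  classical
  intro k T R q S E N l₀ γ ε hε hγ0 hγ1 hR hq hE hN a b L C g ha hSq hqE hlR hup hlow low hl
  obtain ⟨w₀, hw₀⟩ := hqE
  have hdv : ∀ x : Pool.Agent.SK.Path k T × Pool.Agent.SK.Path k T, (q : ℤ) ∣ (L : ℤ) * (low x.1 - low x.2) := fun x =>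
    Dvd.dvd.mul_left (dvd_sub (hl x.1) (hl x.2)) _
  obtain ⟨w, hw⟩ : ∃ w : Pool.Agent.SK.Path k T × Pool.Agent.SK.Path k T → ℤ, ∀ x, (L : ℤ) * (low x.1 - low x.2) = (q : ℤ) * w x := ⟨fun x => (hdv x).choose, fun x => (hdv x).choose_spec⟩
  obtain ⟨O, hO⟩ : ∃ O : Finset ℤ, O = (univ : Finset (Pool.Agent.SK.Path k T × Pool.Agent.SK.Path k T)).image (fun x => w x - w₀ * (b * R)) := ⟨_, rfl⟩
  have hOc : #O ≤ N := by
    rw [hO]
    refine card_image_le.trans (le_trans (le_of_eq ?_) hN)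
    rw [card_univ, Fintype.card_prod, card_path]
  obtain ⟨f, hf⟩ : ∃ f : (Pool.Agent.SK.Path k T × Pool.Agent.SK.Path k T) × ℕ × ℕ → ℤ, f = fun x => (L : ℤ) * (low x.1.1 - low x.1.2) + (E : ℕ) * ((a : ℤ) * (x.2.1 : ℕ) - b * (x.2.2 : ℕ)) := ⟨_, rfl⟩
  obtain ⟨U, hU⟩ : ∃ U : Finset ((Pool.Agent.SK.Path k T × Pool.Agent.SK.Path k T) × ℕ × ℕ), U = univ ×ˢ (range R ×ˢ range R) := ⟨_, rfl⟩
  obtain ⟨B, hB⟩ : ∃ B : ℕ, ∀ x ∈ U, |f x| < B := by
    refine ⟨(∑ x ∈ U, |f x|).toNat + 1, fun x hx => ?_⟩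
    have h1 : |f x| ≤ ∑ x ∈ U, |f x| := single_le_sum (f := fun x => |f x|) (fun x _ => abs_nonneg _) hx
    have h2 := Int.self_le_toNat (∑ x ∈ U, |f x|)
    push_cast
    push_cast at h1 h2
    omega
  obtain ⟨Y, hY1, hY2, hY3⟩ := GEZ g (fun Y => ((S * L : ℕ) : ℤ) ∣ Y - C) q E N l₀ γ ε hq hE ⟨w₀, hw₀⟩
    (fun Y hY => by
      have e : Y + (q : ℤ) - C = (Y - C) + (q : ℤ) := by ring
      rw [e]
      exact dvd_add hY (Int.natCast_dvd_natCast.2 hSq)) hε hγ0 hγ1 hup hlow ((a + b) * R)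
    (Nat.mul_pos (by omega) hR) hlR O hOc B
  obtain ⟨m, hm⟩ := hY1
  refine ⟨S * m, dvd_mul_right _ _, fun π π' => ⟨fun u hu u' hu' h0 => ?_, ?_⟩⟩
  · have h1 := hB ((π, π'), (u, u')) (by
      rw [hU]
      simp [hu, hu'])
    rw [hf] at h1
    dsimp only at h1
    have h2 : Y = -((L : ℤ) * (low π - low π') + (E : ℕ) * ((a : ℤ) * (u : ℕ) - b * (u' : ℕ))) := by
      have h3 : Y = C + (L : ℤ) * (S * m) := by
        have : Y - C = ((S * L : ℕ) : ℤ) * m := hm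
        push_cast at this
        linarith
      rw [h3]
      linarith
    rw [h2, abs_neg] at hY2
    omega
  · have hmem : w (π, π') - w₀ * (b * R) ∈ O := by
      rw [hO]
      exact mem_image_of_mem _ (mem_univ (π, π'))
    obtain ⟨-, h2⟩ := hY3 _ hmem
    have e : C + L * (S * m + (low π - low π')) - E * (b * R) = Y + (q : ℤ) * (w (π, π') - w₀ * (b * R)) := by
      have h3 : Y = C + (L : ℤ) * (S * m) := by
        have : Y - C = ((S * L : ℕ) : ℤ) * m := hm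
        push_cast at this
        linarith
      have h4 := hw (π, π')
      have h5 : (E : ℤ) = q * w₀ := by exact_mod_cast hw₀
      dsimp only at h4
      rw [h3, h5, mul_sub, ← h4]
      ring
    rw [e]
    push_cast at h2
    exact h2

end Pool.Agent.FK
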