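import Pool.Agent.helper19.FK.Spec

/-!
# Project FK (MP_bf63dc_nt): the far translations, general form of `SK.LOC`
-/

set_option autoImplicit false

namespace Pool.Agent.FK

open Finset Pool.Agent.SK

/-- **FAR.** The far translations, level by level from the bottom up. -/
theorem FAR (k T : ℕ) (Bad : Fin k → Fin k → Prop) (S : ℕ → ℕ) (q : ℕ → Fin k → Fin k → ℕ) (Z : ℕ → Fin k → Fin k → ℤ → Prop)
    (hqS : ∀ l < T, ∀ l' < l, ∀ i j, Bad i j → q l i j ∣ S l')
    (hstep : ∀ l < T, ∀ i j, Bad i j → ∀ low : Pool.Agent.SK.Path k T → ℤ, (∀ π, (q l i j : ℤ) ∣ low π) →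
      ∃ D : ℤ, (S l : ℤ) ∣ D ∧ ∀ π π' : Pool.Agent.SK.Path k T, Z l i j (D + (low π - low π'))) (n : ℕ) (hn : n ≤ T) :
    ∃ Δ : ℕ → Option (Fin k × Fin k) → ℤ, (∀ l, Δ l none = 0) ∧ (∀ l d, (S l : ℤ) ∣ Δ l d) ∧ ∀ l < n, ∀ i j, Bad i j → ∀ π π' : Pool.Agent.SK.Path k T,
      Z l i j (Δ l (some (i, j)) + (lower Δ l π - lower Δ l π')) := by
  classical
  induction n with
  | zero => exact ⟨fun _ _ => 0, fun _ => rfl, fun _ _ => dvd_zero _, fun l hl => absurd hl (Nat.not_lt_zero l)⟩
  | succ n ih =>
    obtain ⟨Δ, h1, h2, h3⟩ := ih (by omega)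
    have h4 : ∀ i j, ∃ D : ℤ, (S n : ℤ) ∣ D ∧ (Bad i j → ∀ π π' : Pool.Agent.SK.Path k T, Z n i j (D + (lower Δ n π - lower Δ n π'))) := by
      intro i j
      by_cases hB : Bad i j
      · obtain ⟨D, h5, h6⟩ := hstep n (by omega) i j hB (lower Δ n)
          (lower_dvd Δ _ n fun l' hl' d => (Int.natCast_dvd_natCast.2 (hqS n (by omega) l' hl' i j hB)).trans (h2 l' d))
        exact ⟨D, h5, fun _ => h6⟩
      · exact ⟨0, dvd_zero _, fun h => absurd h hB⟩
    choose D h5 h6 using h4
    refine ⟨Function.update Δ n (fun d => match d with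
      | none => 0
      | some (i, j) => D i j), ?_, ?_, ?_⟩
    · intro l
      by_cases hl : l = n
      · rw [hl, Function.update_self]
      · rw [Function.update_of_ne hl]
        exact h1 l
    · intro l d
      by_cases hl : l = n
      · rw [hl, Function.update_self]
        cases d with
        | none => exact dvd_zero _
        | some x => exact h5 x.1 x.2
      · rw [Function.update_of_ne hl]
        exact h2 l d
    · intro l hl i j hB π π'
      have e1 : ∀ π : Pool.Agent.SK.Path k T, lower (Function.update Δ n (fun d => match d with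
          | none => 0
          | some (i, j) => D i j)) l π = lower Δ l π := by
        intro π
        refine lower_congr _ _ l (fun l' hl' => ?_) π
        rw [Function.update_of_ne (by omega)]
      rw [e1, e1]
      rcases lt_or_eq_of_le (Nat.lt_succ_iff.1 hl) with h7 | h7
      · rw [Function.update_of_ne (by omega)]
        exact h3 l h7 i j hB π π'
      · rw [h7, Function.update_self]
        exact h6 i j hB π π'

end Pool.Agent.FK
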