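import Pool.Agent.helper19.FK.MAIN
import Pool.Agent.helper24.FK.TRH
import Pool.Agent.helper18.HF.CND
import Pool.Agent.helper27.HF.BES
import Pool.Agent.helper27.HF.ENP
import Pool.Agent.helper13.HF.FCA
import Pool.Agent.helper33.HF.FCM
import Pool.Agent.helper3.HF.FCB
import Pool.Agent.helper43.HF.POL
import Pool.Agent.helper90.HF.PPZ
import Pool.Agent.helper20.HF.APZ
import Pool.Agent.helper48.HF.LAZ
import Pool.Agent.helper92.HF.LRZ
import Pool.Agent.helper89.HF.FEZ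
import Pool.Agent.helper67.HF.EXZ
import Pool.Agent.helper76.DK.CLU
import Pool.Agent.helper38.AT.All

/-!
# Project FK (MP_bf63dc_nt): final form
-/

set_option autoImplicit false

namespace Pool.Agent.FK

open Finset Pool.Agent.AT
open Pool.Agent.SK (Dens)
open Pool.Agent.HF (cz TC)

/-- the classes of `c` and of `-c` -/
theorem Dens_symm (η : ℝ) (a b : ℕ) (c : ℤ) (h : Dens η a b c) : Dens η b a (-c) := by
  classical
  obtain ⟨D, hD, h1⟩ := h
  refine ⟨D, hD, fun q hq hDq => ?_⟩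
  obtain ⟨M₀, h2⟩ := h1 q hq hDq
  refine ⟨M₀, fun M hM Y hY => ?_⟩
  have h3 := h2 M hM (-Y - q * (M - 1)) (by
    have e : -Y - q * (M - 1) - c = -(Y - -c) - q * (M - 1) := by ring
    rw [e]
    refine dvd_sub ((dvd_neg).2 hY) (Dvd.dvd.mul_right (Int.natCast_dvd_natCast.2 hDq) _))
  refine h3.trans ?_
  unfold cz
  refine Nat.cast_le.2 (card_le_card_of_injOn (fun t => M - 1 - t) ?_ ?_)
  · intro t ht
    rw [mem_coe, mem_filter, mem_range] at ht
    rw [mem_coe, mem_filter, mem_range]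
    dsimp only
    refine ⟨by omega, ?_⟩
    have h4 := Pool.Agent.DK.CLU_symm ht.2
    have e : -(-Y - q * (M - 1) + q * (t : ℕ)) = Y + (q : ℤ) * ((M - 1 - t : ℕ) : ℤ) := by
      have h5 : ((M - 1 - t : ℕ) : ℤ) = (M : ℤ) - 1 - t := by omega
      rw [h5]
      ring
    rw [e] at h4
    exact h4
  · intro t ht t' ht' htt
    rw [mem_coe, mem_filter, mem_range] at ht ht'
    dsimp only at htt
    omega

theorem four_forms (hCLG : CLG_stmt) (hLOS : LOS_stmt) (F : Fin 4 → ℕ × ℤ) (hF0 : ∀ i, 0 < (F i).1) (hF : Adm F) :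
    ∃ I : Finset (Fin 4), ((4 : ℕ) : ℝ) / 4 < I.card ∧ ∀ i ∈ I, ∀ j ∈ I, i ≠ j →
      Dens (1 / 2 + 3 / 10 ^ 6) ((F j).1 / Nat.gcd (F i).1 (F j).1) ((F i).1 / Nat.gcd (F i).1 (F j).1)
        ((((F j).1 / Nat.gcd (F i).1 (F j).1 : ℕ) : ℤ) * (F i).2 - (((F i).1 / Nat.gcd (F i).1 (F j).1 : ℕ) : ℤ) * (F j).2) := by
  classical
  obtain ⟨i, j, hij, h⟩ := MAIN TRH hCLG hLOS (Pool.Agent.HF.FCB Pool.Agent.HF.CND (Pool.Agent.HF.ENP Pool.Agent.HF.CND) (Pool.Agent.HF.FCA Pool.Agent.HF.CND Pool.Agent.HF.BES) (Pool.Agent.HF.FCM Pool.Agent.HF.CND Pool.Agent.HF.BES))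
    (Pool.Agent.HF.LRZ Pool.Agent.HF.APZ (Pool.Agent.HF.LAZ (Pool.Agent.HF.PPZ Pool.Agent.HF.POL))) Pool.Agent.HF.FEZ Pool.Agent.HF.EXZ Pool.Agent.AT.Q_all F hF0 hF
  refine ⟨{i, j}, ?_, ?_⟩
  · rw [card_pair hij]
    norm_num
  · have h' := Dens_symm _ _ _ _ h
    intro x hx y hy hxy
    rw [mem_insert, mem_singleton] at hx hy
    rcases hx with rfl | rfl <;> rcases hy with rfl | rfl
    · exact absurd rfl hxy
    · exact h
    · rw [Nat.gcd_comm (F x).1 (F y).1]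
      rw [neg_sub] at h'
      exact h'
    · exact absurd rfl hxy

end Pool.Agent.FK
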