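import Pool.Agent.helper19.FK.FAR
import Pool.Agent.helper19.SK.MAIN
import Pool.Agent.helper19.HF.MAINZ

/-!
# Project FK (MP_bf63dc_nt): the assembly
-/

set_option autoImplicit false

namespace Pool.Agent.FK

open Finset Pool.Agent.AT
open Pool.Agent.SK (NZ MODS lower shift shift_sub lower_dvd card_path Dens)
open Pool.Agent.HF (cz Om TC FC_stmt LRZ_stmt FEZ_stmt EXZ_stmt MAIN_max_l MAINZ_P MAINZ_H1 MAINZ_H2 Low H1 H2Z H3Z CLZ_adm)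

/-- four numbers -/
theorem NUM (x : Fin 4 → ℝ) (hx : ∀ i, 0 ≤ x i ∧ x i ≤ 1)
    (h : ∀ i j : Fin 4, i ≠ j → 1 / 10 ^ 7 ≤ x i → 1 / 10 ^ 7 ≤ x j → x i + x j ≤ 1 / 2 + 3 / 10 ^ 6 + 1 / 10 ^ 7) : ∑ i, x i ≤ 1 + 7 / 10 ^ 6 := by
  rw [Fin.sum_univ_four]
  have g0 := (hx 0).2
  have g1 := (hx 1).2
  have g2 := (hx 2).2
  have g3 := (hx 3).2
  have h01 := h 0 1 (by decide)
  have h02 := h 0 2 (by decide)
  have h03 := h 0 3 (by decide)
  have h12 := h 1 2 (by decide)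
  have h13 := h 1 3 (by decide)
  have h23 := h 2 3 (by decide)
  rcases le_or_gt (1 / 10 ^ 7) (x 0) with c0 | c0 <;> rcases le_or_gt (1 / 10 ^ 7) (x 1) with c1 | c1 <;>
    rcases le_or_gt (1 / 10 ^ 7) (x 2) with c2 | c2 <;> rcases le_or_gt (1 / 10 ^ 7) (x 3) with c3 | c3
  · linarith [h01 c0 c1, h23 c2 c3]
  · linarith [h01 c0 c1, h02 c0 c2, h12 c1 c2]
  · linarith [h01 c0 c1, h03 c0 c3, h13 c1 c3]
  · linarith [h01 c0 c1]
  · linarith [h02 c0 c2, h03 c0 c3, h23 c2 c3]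
  · linarith [h02 c0 c2]
  · linarith [h03 c0 c3]
  · linarith
  · linarith [h12 c1 c2, h13 c1 c3, h23 c2 c3]
  · linarith [h12 c1 c2]
  · linarith [h13 c1 c3]
  · linarith
  · linarith [h23 c2 c3]
  · linarith
  · linarith
  · linarith

/-- the property of the modulus `q` of the windows of a bad pair -/
def Wd (g : ℤ → Prop) (c : ℤ) (θ ε : ℝ) (D q : ℕ) (γ : ℝ) : Prop :=
  0 ≤ γ ∧ γ ≤ 1 ∧ γ ≤ θ ∧ (∀ l : ℕ, ∃ Y : ℤ, (D : ℤ) ∣ Y - c ∧ (cz g Y q l : ℝ) ≤ (γ + ε) * l) ∧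
    ∀ r : ℕ, 1 ≤ r → ∃ l₀ : ℕ, ∀ l : ℕ, l₀ ≤ l → ∀ Y : ℤ, (D : ℤ) ∣ Y - c → (γ - ε) * l ≤ cz g Y (q * r) l

theorem Wd_of (hFEZ : FEZ_stmt) (hEXZ : EXZ_stmt) (a b : ℕ) (c : ℤ) (θ ε : ℝ) (hε : 0 < ε) (h : ¬ Dens θ a b c) (D : ℕ) (hD : 1 ≤ D) :
    ∃ q : ℕ, 1 ≤ q ∧ D ∣ q ∧ ∃ γ, Wd (TC a b) c θ ε D q γ := by
  unfold Dens at h
  push Not at h
  obtain ⟨q, h2, h3, h4⟩ := h D hD
  have hLow : Low (TC a b) D c θ := by
    refine ⟨q, h2, h3, fun l₀ => ?_⟩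
    obtain ⟨M, h5, Y, h6, h7⟩ := h4 l₀
    exact ⟨M, h5, Y, h6, h7.le⟩
  obtain ⟨s, γ, h5, h6, h7, h8, h9, h10, h11⟩ := hEXZ hFEZ (TC a b) D c θ ε hD hLow hε
  exact ⟨s, h5, h6, γ, h7, h8, h9, h10, h11⟩

/-- **MAIN.** -/
theorem MAIN (hTRH : TRH_stmt) (hCLG : CLG_stmt) (hLOS : LOS_stmt) (hFC : FC_stmt) (hLRZ : LRZ_stmt) (hFEZ : FEZ_stmt) (hEXZ : EXZ_stmt) (hQ : ∀ k : ℕ, 1 ≤ k → Qk k)
    (F : Fin 4 → ℕ × ℤ) (hF0 : ∀ i, 0 < (F i).1) (hF : Adm F) :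
    ∃ i j : Fin 4, i ≠ j ∧ Dens (1 / 2 + 3 / 10 ^ 6) ((F j).1 / Nat.gcd (F i).1 (F j).1) ((F i).1 / Nat.gcd (F i).1 (F j).1)
        ((((F j).1 / Nat.gcd (F i).1 (F j).1 : ℕ) : ℤ) * (F i).2 - (((F i).1 / Nat.gcd (F i).1 (F j).1 : ℕ) : ℤ) * (F j).2) := by
  classical
  by_contra hcon
  push Not at hcon
  obtain ⟨T, hT⟩ : ∃ T : ℕ, T = 10 ^ 9 := ⟨_, rfl⟩
  have hT1 : 1 ≤ T := by rw [hT]; norm_num
  obtain ⟨P, hP⟩ : ∃ P : ℕ, P = (4 * 4 + 1) ^ T := ⟨_, rfl⟩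
  have hP1 : 1 ≤ P := by
    rw [hP]
    exact Nat.one_le_pow _ _ (by norm_num)
  obtain ⟨B, hB⟩ : ∃ B : ℕ, B = P * 4 := ⟨_, rfl⟩
  have hB1 : 1 ≤ B := by omega
  obtain ⟨N, hN⟩ : ∃ N : ℕ, N = (4 * 4 + 1) ^ T * (4 * 4 + 1) ^ T := ⟨_, rfl⟩
  obtain ⟨θ, hθ⟩ : ∃ θ : ℝ, θ = 1 / 2 + 3 / 10 ^ 6 := ⟨_, rfl⟩
  obtain ⟨e, hee⟩ : ∃ e : ℝ, e = 1 / 10 ^ 7 := ⟨_, rfl⟩
  have he : 0 < e := by rw [hee]; positivity
  have he1 : e ≤ 1 := by rw [hee]; norm_num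
  rw [← hθ] at hcon
  -- slopes
  obtain ⟨d, hd⟩ : ∃ d : Fin 4 → Fin 4 → ℕ, d = fun i j => Nat.gcd (F i).1 (F j).1 := ⟨_, rfl⟩
  obtain ⟨a, haa⟩ : ∃ a : Fin 4 → Fin 4 → ℕ, a = fun i j => (F j).1 / Nat.gcd (F i).1 (F j).1 := ⟨_, rfl⟩
  obtain ⟨b, hbb⟩ : ∃ b : Fin 4 → Fin 4 → ℕ, b = fun i j => (F i).1 / Nat.gcd (F i).1 (F j).1 := ⟨_, rfl⟩
  have hd0 : ∀ i j, 0 < d i j := fun i j => by rw [hd]; exact Nat.gcd_pos_of_pos_left _ (hF0 i)
  have hda : ∀ i j, d i j * a i j = (F j).1 := fun i j => by rw [hd, haa]; exact Nat.mul_div_cancel' (Nat.gcd_dvd_right _ _)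
  have hdb : ∀ i j, d i j * b i j = (F i).1 := fun i j => by rw [hd, hbb]; exact Nat.mul_div_cancel' (Nat.gcd_dvd_left _ _)
  have ha : ∀ i j, 1 ≤ a i j := fun i j => Nat.pos_of_ne_zero fun h => by
    have h1 := hda i j
    rw [h, mul_zero] at h1
    have h2 := hF0 j
    omega
  have hb : ∀ i j, 1 ≤ b i j := fun i j => Nat.pos_of_ne_zero fun h => by
    have h1 := hdb i j
    rw [h, mul_zero] at h1
    have h2 := hF0 i
    omega
  obtain ⟨cc, hcc⟩ : ∃ cc : Fin 4 → Fin 4 → ℤ, cc = fun i j => (a i j : ℤ) * (F i).2 - (b i j : ℤ) * (F j).2 := ⟨_, rfl⟩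
  have hno : ∀ i j : Fin 4, i ≠ j → ¬ Dens θ (a i j) (b i j) (cc i j) := by
    intro i j hij
    rw [hcc, haa, hbb]
    exact hcon i j hij
  -- the analytic constants
  choose ε ε₁ QL hε hε₁ hQ1 hL using fun (i j : Fin 4) => hLRZ (a i j) (b i j) (ha i j) (hb i j) e he he1
  obtain ⟨p, -, hp⟩ := exists_min_image (univ : Finset (Fin 4 × Fin 4)) (fun p => ε₁ p.1 p.2) univ_nonempty
  obtain ⟨εF, hεF⟩ : ∃ εF : ℝ, εF = min (ε₁ p.1 p.2) (1 / 10 ^ 7) := ⟨_, rfl⟩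
  have hεF0 : 0 < εF := by rw [hεF]; exact lt_min (hε₁ _ _) (by positivity)
  have hεF1 : ∀ i j, εF ≤ ε₁ i j := fun i j => by rw [hεF]; exact (min_le_left _ _).trans (hp (i, j) (mem_univ _))
  have hεF2 : εF ≤ 1 / 10 ^ 7 := by rw [hεF]; exact min_le_right _ _
  obtain ⟨n, η, hn, hη, hFC⟩ := hFC B εF hB1 hεF0 (by linarith [show (1 / 10 ^ 7 : ℝ) ≤ 1 by norm_num])
  obtain ⟨L₁, hCLG⟩ := hCLG hQ n B η hn hB1 hη
  obtain ⟨p', -, hp'⟩ := exists_min_image (univ : Finset (Fin 4 × Fin 4)) (fun p => ε p.1 p.2) univ_nonempty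
  obtain ⟨εX, hεX⟩ : ∃ εX : ℝ, εX = ε p'.1 p'.2 / (4 * ((N : ℝ) + 1)) := ⟨_, rfl⟩
  have hN0 : (0 : ℝ) < 4 * ((N : ℝ) + 1) := by positivity
  have hεX0 : 0 < εX := by rw [hεX]; exact div_pos (hε _ _) hN0
  have hεX1 : ∀ i j, 4 * ((N : ℝ) + 1) * εX ≤ ε i j := fun i j => by
    rw [hεX, mul_div_cancel₀ _ hN0.ne']
    exact hp' (i, j) (mem_univ _)
  have hεX2 : ∀ i j, εX ≤ ε i j := fun i j => by
    refine le_trans ?_ (hεX1 i j)
    have : (0 : ℝ) ≤ N := Nat.cast_nonneg _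
    nlinarith
  -- the moduli
  obtain ⟨D₁, hD₁⟩ : ∃ D₁ : ℕ, D₁ = (∏ i, (F i).1) * Nat.factorial (n * B) := ⟨_, rfl⟩
  have hD₁1 : 1 ≤ D₁ := by
    rw [hD₁]
    exact Nat.mul_pos (prod_pos fun i _ => hF0 i) (Nat.factorial_pos _)
  obtain ⟨L, hLL⟩ : ∃ L : Fin 4 → Fin 4 → ℕ, L = fun i j => b i j * (F j).1 := ⟨_, rfl⟩
  have hL1 : ∀ i j : Fin 4, i ≠ j → 1 ≤ L i j := by
    intro i j _
    rw [hLL]
    exact Nat.mul_pos (hb i j) (hF0 j)
  obtain ⟨S, q, E, hE1, hDE, hDS, hq1, hSq, hqE, hqS, hW⟩ := MODS 4 T D₁ hD₁1 L (fun i j => i ≠ j) hL1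
    (fun i j D q => ∃ γ, Wd (TC (a i j) (b i j)) (cc i j) θ εX D q γ) (fun i j hij D hD => Wd_of hFEZ hEXZ _ _ _ θ εX hεX0 (hno i j hij) D hD)
  have hW' : ∀ l i j, ∃ γ, i ≠ j → Wd (TC (a i j) (b i j)) (cc i j) θ εX (S l * L i j) (q l i j) γ := by
    intro l i j
    by_cases hij : i = j
    · exact ⟨0, fun h => absurd hij h⟩
    · obtain ⟨γ, hγ⟩ := hW l i j hij
      exact ⟨γ, fun _ => hγ⟩
  choose γ hγ using hW'
  have hl : ∀ l i j, ∃ l₀ : ℕ, l < T → i ≠ j → ∀ r : ℕ, 1 ≤ r → r ≤ max (QL i j) 1 → ∀ m : ℕ, l₀ ≤ m → ∀ Y : ℤ, ((S l * L i j : ℕ) : ℤ) ∣ Y - cc i j →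
      (γ l i j - εX) * m ≤ cz (TC (a i j) (b i j)) Y (E * r) m := by
    intro l i j
    by_cases hij : l < T ∧ i ≠ j
    · obtain ⟨-, -, -, -, h5⟩ := hγ l i j hij.2
      obtain ⟨w, hw⟩ := hqE l hij.1 i j hij.2
      have hw1 : 1 ≤ w := Nat.pos_of_ne_zero fun h => by
        rw [h, mul_zero] at hw
        omega
      obtain ⟨l₀, hl₀⟩ := MAIN_max_l (max (QL i j) 1) (fun r l₀ => ∀ m : ℕ, l₀ ≤ m → ∀ Y : ℤ, ((S l * L i j : ℕ) : ℤ) ∣ Y - cc i j →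
        (γ l i j - εX) * m ≤ cz (TC (a i j) (b i j)) Y (E * r) m)
        (fun r l l' hll h m hm => h m (hll.trans hm)) (fun r hr => by
          obtain ⟨l₀, hl₀⟩ := h5 (w * r) (Nat.mul_pos hw1 hr)
          refine ⟨l₀, fun m hm Y hY => ?_⟩
          have h6 := hl₀ m hm Y hY
          rw [hw, mul_assoc]
          exact h6)
      exact ⟨l₀, fun _ _ => hl₀⟩
    · exact ⟨0, fun h1 h2 => absurd ⟨h1, h2⟩ hij⟩
  choose l₀ hl₀ using hl
  obtain ⟨lm, hlm⟩ : ∃ lm : ℕ, lm = ∑ l ∈ range T, ∑ i, ∑ j, l₀ l i j := ⟨_, rfl⟩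
  have hlm1 : ∀ l < T, ∀ i j, l₀ l i j ≤ lm := by
    intro l hl i j
    rw [hlm]
    have h1 : l₀ l i j ≤ ∑ j, l₀ l i j := single_le_sum (f := fun j => l₀ l i j) (fun _ _ => Nat.zero_le _) (mem_univ j)
    have h2 : ∑ j, l₀ l i j ≤ ∑ i, ∑ j, l₀ l i j := single_le_sum (f := fun i => ∑ j, l₀ l i j) (fun _ _ => Nat.zero_le _) (mem_univ i)
    have h3 : ∑ i, ∑ j, l₀ l i j ≤ ∑ l ∈ range T, ∑ i, ∑ j, l₀ l i j := single_le_sum (f := fun l => ∑ i, ∑ j, l₀ l i j) (fun _ _ => Nat.zero_le _) (mem_range.2 hl)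
    omega
  choose R₀ hR₀ using fun (i j : Fin 4) => hL i j lm
  obtain ⟨R, hRR⟩ : ∃ R : ℕ, R = L₁ + ∑ i, ∑ j, R₀ i j + lm + 1 := ⟨_, rfl⟩
  have hR1 : 1 ≤ R := by omega
  have hRL : L₁ ≤ R := by omega
  have hRl : lm ≤ R := by omega
  have hRij : ∀ i j, R₀ i j ≤ R := by
    intro i j
    have h1 : R₀ i j ≤ ∑ j, R₀ i j := single_le_sum (f := fun j => R₀ i j) (fun _ _ => Nat.zero_le _) (mem_univ j)
    have h2 : ∑ j, R₀ i j ≤ ∑ i, ∑ j, R₀ i j := single_le_sum (f := fun i => ∑ j, R₀ i j) (fun _ _ => Nat.zero_le _) (mem_univ i)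
    omega
  have hR0 : (0 : ℝ) < R := by exact_mod_cast hR1
  -- the far translations
  obtain ⟨Δ, hΔ0, hΔS, hΔ⟩ := FAR 4 T (fun i j => i ≠ j) S q (fun l i j x =>
      (∀ u < R, ∀ u' < R, cc i j + L i j * x + (E : ℕ) * ((a i j : ℤ) * (u : ℕ) - b i j * (u' : ℕ)) ≠ 0) ∧
      (cz (TC (a i j) (b i j)) (cc i j + L i j * x - E * (b i j * R)) E ((a i j + b i j) * R) : ℝ) ≤ (γ l i j + 4 * (N + 1) * εX) * ((a i j + b i j) * R))
    hqS (fun l hl i j hij low hlow => by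
      obtain ⟨h1, h2, -, h4, -⟩ := hγ l i j hij
      refine hLOS 4 T R (q l i j) (S l) E N (l₀ l i j) (γ l i j) εX hεX0 h1 h2 hR1 (hq1 l i j hij) hE1 (le_of_eq hN.symm) (a i j) (b i j) (L i j) (cc i j) (TC (a i j) (b i j)) (ha i j)
        (hSq l i j hij) (hqE l hl i j hij) ?_ h4 (fun m hm Y hY => ?_) low hlow
      · have h5 := hlm1 l hl i j
        have h6 := ha i j
        calc l₀ l i j ≤ R := h5.trans hRl
          _ = 1 * R := (one_mul R).symm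
          _ ≤ (a i j + b i j) * R := Nat.mul_le_mul_right R (by omega)
      · have h5 := hl₀ l i j hl hij 1 le_rfl (le_max_right _ _) m hm Y hY
        rw [mul_one] at h5
        exact h5) T le_rfl
  obtain ⟨n₀, hn₀⟩ := NZ F hF D₁ hD₁1
  -- the forms
  have hcard : Fintype.card (Pool.Agent.SK.Path 4 T × Fin 4) = B := by
    rw [Fintype.card_prod, card_path, Fintype.card_fin, hB, hP]
  obtain ⟨σ⟩ : Nonempty (Fin B ≃ Pool.Agent.SK.Path 4 T × Fin 4) := ⟨(Fintype.equivFinOfCardEq hcard).symm⟩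
  obtain ⟨fm, hfm⟩ : ∃ fm : Fin B → ℕ → ℕ × ℤ, fm = fun (β : Fin B) (u : ℕ) => ((F (σ β).2).1, ((F (σ β).2).1 : ℤ) * n₀ + (F (σ β).2).2 + (F (σ β).2).1 * shift Δ (σ β).1 + (E : ℕ) * (u : ℤ)) := ⟨_, rfl⟩
  have hfm1 : ∀ β u, (fm β u).1 = (F (σ β).2).1 := fun β u => by rw [hfm]
  have hfm2 : ∀ β u, (fm β u).2 = ((F (σ β).2).1 : ℤ) * n₀ + (F (σ β).2).2 + (F (σ β).2).1 * shift Δ (σ β).1 + (E : ℕ) * (u : ℤ) := fun β u => by rw [hfm]
  have hfinj : ∀ β, Function.Injective (fm β) := by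
    intro β u u' h
    have h1 := congrArg Prod.snd h
    rw [hfm2, hfm2] at h1
    have h2 : ((E : ℕ) : ℤ) * (u : ℤ) = ((E : ℕ) : ℤ) * (u' : ℤ) := by linarith
    have h3 : ((E : ℕ) : ℤ) ≠ 0 := by exact_mod_cast (by omega : E ≠ 0)
    exact_mod_cast mul_left_cancel₀ h3 h2
  have hadm : ∀ (β : Fin (n * B) → Fin B) (u : Fin (n * B) → ℕ), Adm fun i => fm (β i) (u i) := by
    intro β u
    refine CLZ_adm (n * B) D₁ _ ?_ (fun i => ((F (σ (β i)).2).1 : ℤ) * n₀ + (F (σ (β i)).2).2) (fun i => hn₀ _) ?_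
    · intro p hp hpD
      refine ⟨?_, ?_⟩
      · by_contra hlt
        apply hpD
        rw [hD₁]
        exact ((Nat.dvd_factorial hp.pos (not_lt.1 hlt)).mul_left _)
      · intro i hpi
        rw [hfm1] at hpi
        apply hpD
        rw [hD₁]
        exact (hpi.trans (dvd_prod_of_mem (fun i => (F i).1) (mem_univ _))).mul_right _
    · intro i
      rw [hfm2]
      have e : ((F (σ (β i)).2).1 : ℤ) * n₀ + (F (σ (β i)).2).2 + (F (σ (β i)).2).1 * shift Δ (σ (β i)).1 + (E : ℕ) * (u i : ℤ) - (((F (σ (β i)).2).1 : ℤ) * n₀ + (F (σ (β i)).2).2) =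
          (F (σ (β i)).2).1 * shift Δ (σ (β i)).1 + (E : ℤ) * (u i) := by ring
      rw [e]
      refine dvd_add (Dvd.dvd.mul_left ?_ _) (Dvd.dvd.mul_right (Int.natCast_dvd_natCast.2 hDE) _)
      unfold shift
      exact dvd_sum fun l _ => (Int.natCast_dvd_natCast.2 (hDS l)).trans (hΔS _ _)
  have hfm0 : ∀ β u, 0 < (fm β u).1 := fun β u => by rw [hfm1]; exact hF0 _
  obtain ⟨Ed, hEd⟩ : ∃ Ed : Fin B → Fin B → ℕ → ℕ → Prop, Ed = fun β β' u v => fm β u ≠ fm β' v → Pair (fm β u) (fm β' v) := ⟨_, rfl⟩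
  obtain ⟨f, hf, hsum, hpair⟩ := hFC R (1 / 4 + 1 / 500000) Ed hR1 (by norm_num) (by
    refine le_trans (le_of_eq ?_) (hCLG R hRL fm hfinj hfm0 hadm)
    refine congrArg (fun z : Finset (Om n B R) => ((#z : ℕ) : ℝ)) ?_
    ext ω
    rw [mem_filter, mem_filter, hEd])
  -- the constant of a pair of forms
  have hpr : ∀ (i j : Fin 4) (π π' : Pool.Agent.SK.Path 4 T) (u v : ℕ),
      cc i j + L i j * (shift Δ π - shift Δ π') + (E : ℕ) * ((a i j : ℤ) * (u : ℕ) - b i j * (v : ℕ)) ≠ 0 →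
      Ed (σ.symm (π, i)) (σ.symm (π', j)) u v → TC (a i j) (b i j) (cc i j + L i j * (shift Δ π - shift Δ π') + (E : ℕ) * ((a i j : ℤ) * (u : ℕ) - b i j * (v : ℕ))) := by
    intro i j π π' u v hne hE
    rw [hEd] at hE
    obtain ⟨c, hc⟩ : ∃ c : ℤ, c = cc i j + L i j * (shift Δ π - shift Δ π') + (E : ℕ) * ((a i j : ℤ) * (u : ℕ) - b i j * (v : ℕ)) := ⟨_, rfl⟩
    rw [← hc] at hne ⊢
    have hda' : ((F j).1 : ℤ) = d i j * a i j := by exact_mod_cast (hda i j).symm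
    have hdb' : ((F i).1 : ℤ) = d i j * b i j := by exact_mod_cast (hdb i j).symm
    have hx1 : (fm (σ.symm (π, i)) u).1 = (F i).1 := by rw [hfm1, Equiv.apply_symm_apply]
    have hy1 : (fm (σ.symm (π', j)) v).1 = (F j).1 := by rw [hfm1, Equiv.apply_symm_apply]
    have hx2 : (fm (σ.symm (π, i)) u).2 = ((F i).1 : ℤ) * n₀ + (F i).2 + (F i).1 * shift Δ π + (E : ℕ) * (u : ℤ) := by rw [hfm2, Equiv.apply_symm_apply]
    have hy2 : (fm (σ.symm (π', j)) v).2 = ((F j).1 : ℤ) * n₀ + (F j).2 + (F j).1 * shift Δ π' + (E : ℕ) * (v : ℤ) := by rw [hfm2, Equiv.apply_symm_apply]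
    have hnum : ((fm (σ.symm (π', j)) v).1 : ℤ) * (fm (σ.symm (π, i)) u).2 - (fm (σ.symm (π, i)) u).1 * (fm (σ.symm (π', j)) v).2 = d i j * c := by
      rw [hx1, hy1, hx2, hy2, hc, hcc, hLL]
      dsimp only
      push_cast
      rw [hda', hdb']
      ring
    have hneq : fm (σ.symm (π, i)) u ≠ fm (σ.symm (π', j)) v := by
      intro h
      rw [h] at hnum
      have h3 : (d i j : ℤ) * c = 0 := by
        rw [← hnum]
        ring
      rcases mul_eq_zero.1 h3 with h4 | h4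
      · have := hd0 i j
        omega
      · exact hne h4
    have hP := hE hneq
    unfold Pair at hP
    rw [hnum, hx1, hy1] at hP
    have e3 : (d i j : ℤ) * c / (Nat.gcd (F i).1 (F j).1 : ℕ) = c := by
      have : (Nat.gcd (F i).1 (F j).1 : ℕ) = d i j := by rw [hd]
      rw [this]
      exact Int.mul_ediv_cancel_left _ (by have := hd0 i j; omega)
    rw [e3] at hP
    rw [haa, hbb]
    exact hP
  -- two facing blocks
  have key : ∀ (l : Fin T) (i j : Fin 4) (π π' : Pool.Agent.SK.Path 4 T), i ≠ j → (∀ l' : Fin T, (l : ℕ) < l' → π l' = π' l') → π l = some (i, j) → π' l = none →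
      e * R ≤ ∑ u ∈ range R, f (σ.symm (π, i)) u → e * R ≤ ∑ u ∈ range R, f (σ.symm (π', j)) u →
      ∑ u ∈ range R, f (σ.symm (π, i)) u + ∑ u ∈ range R, f (σ.symm (π', j)) u ≤ (θ + e) * R := by
    intro l i j π π' hij hag hπ hπ' h1 h2
    obtain ⟨g1, g2, g3, g4, g5⟩ := hγ l i j hij
    obtain ⟨hz, hw⟩ := hΔ l l.2 i j hij π π'
    have hsh := shift_sub Δ l π π' hag
    rw [hπ, hπ', hΔ0, sub_zero] at hsh
    rw [← hsh] at hz hw
    obtain ⟨loc, hloc⟩ : ∃ loc : ℤ, loc = cc i j + L i j * (shift Δ π - shift Δ π') := ⟨_, rfl⟩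
    rw [← hloc] at hz hw
    have hSdvd : (S l : ℤ) ∣ shift Δ π - shift Δ π' := by
      rw [hsh]
      refine dvd_add (hΔS l _) ?_
      have h3 : ∀ ρ : Pool.Agent.SK.Path 4 T, (q l i j : ℤ) ∣ lower Δ l ρ := fun ρ =>
        lower_dvd Δ _ l (fun l' hl' d => (Int.natCast_dvd_natCast.2 (hqS l l.2 l' hl' i j hij)).trans (hΔS l' d)) ρ
      have h4 : (S l : ℤ) ∣ (q l i j : ℤ) := Int.natCast_dvd_natCast.2 ((dvd_mul_right _ _).trans (hSq l i j hij))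
      exact dvd_sub (h4.trans (h3 π)) (h4.trans (h3 π'))
    have hlocd : ∀ w : ℤ, ((S l * L i j : ℕ) : ℤ) ∣ loc + E * w - cc i j := by
      intro w
      have e1 : loc + E * w - cc i j = (shift Δ π - shift Δ π') * (L i j : ℤ) + E * w := by
        rw [hloc]
        ring
      rw [e1]
      refine dvd_add ?_ ?_
      · push_cast
        exact mul_dvd_mul hSdvd dvd_rfl
      · exact Dvd.dvd.mul_right (Int.natCast_dvd_natCast.2 ((hSq l i j hij).trans (hqE l l.2 i j hij))) _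
    have hγe : (γ l i j + e) * R ≤ (θ + e) * R := mul_le_mul_of_nonneg_right (by linarith) hR0.le
    refine le_trans (hR₀ i j R (hRij i j) (MAINZ_P (TC (a i j) (b i j)) loc E) (γ l i j) g1 (by rw [hθ] at g3; rw [hee]; linarith) ?_ ?_
      (f (σ.symm (π, i))) (f (σ.symm (π', j))) (hf _) (hf _) ?_ h1 h2) hγe
    · refine MAINZ_H1 (TC (a i j) (b i j)) (fun Y => ((S l * L i j : ℕ) : ℤ) ∣ Y - cc i j) E (QL i j) lm (γ l i j) εX (ε i j) (hεX2 i j) ?_ _ loc hlocd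
      intro r hr hrQ m hm Y hY
      exact hl₀ l i j l.2 hij r hr (hrQ.trans (le_max_left _ _)) m ((hlm1 l l.2 i j).trans hm) Y hY
    · exact MAINZ_H2 (TC (a i j) (b i j)) E (a i j) (b i j) R (γ l i j) (4 * (N + 1) * εX) (ε i j) (hεX1 i j) loc hw
    · unfold H3Z
      have h3 := hpair (σ.symm (π, i)) (σ.symm (π', j)) (by
        intro h
        have h4 := σ.symm.injective h
        have h5 : π = π' := congrArg Prod.fst h4
        rw [h5, hπ'] at hπ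
        exact (Option.some_ne_none _) hπ.symm)
      refine le_trans (sum_le_sum fun u hu => sum_le_sum fun v hv => ?_) (h3.trans (mul_le_mul_of_nonneg_right (hεF1 i j) (by positivity)))
      have hff : 0 ≤ f (σ.symm (π, i)) u * f (σ.symm (π', j)) v := mul_nonneg (hf _ _).1 (hf _ _).1
      by_cases h5 : MAINZ_P (TC (a i j) (b i j)) loc E ((a i j : ℤ) * (u : ℕ) - b i j * (v : ℕ))
      · rw [if_pos h5]
        split_ifs
        · exact le_rfl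
        · exact hff
      · rw [if_neg h5, if_neg]
        intro h6
        apply h5
        unfold MAINZ_P
        have h7 := hpr i j π π' u v (by
          rw [← hloc]
          exact hz u (mem_range.1 hu) v (mem_range.1 hv)) h6
        rw [← hloc] at h7
        exact h7
  -- the means
  obtain ⟨M, hM⟩ : ∃ M : Pool.Agent.SK.Path 4 T × Fin 4 → ℝ, M = fun z => (∑ u ∈ range R, f (σ.symm z) u) / R := ⟨_, rfl⟩
  have hM0 : ∀ z, 0 ≤ M z ∧ M z ≤ 1 := by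
    intro z
    rw [hM]
    refine ⟨div_nonneg (sum_nonneg fun u _ => (hf _ u).1) hR0.le, ?_⟩
    rw [div_le_one hR0]
    refine (sum_le_sum fun u _ => (hf _ u).2).trans ?_
    rw [sum_const, card_range, nsmul_eq_mul, mul_one]
  have hMR : ∀ z, M z * R = ∑ u ∈ range R, f (σ.symm z) u := by
    intro z
    rw [hM]
    exact div_mul_cancel₀ _ hR0.ne'
  have hT2 := hTRH 4 T (θ + e) e (1 + 7 / 10 ^ 6) (fun i j => i ≠ j) M hT1 hM0 (by
    intro l i j π π' hij hag hπ hπ' h1 h2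
    have h3 := key l i j π π' hij hag hπ hπ' (by rw [← hMR]; exact mul_le_mul_of_nonneg_right h1 hR0.le) (by rw [← hMR]; exact mul_le_mul_of_nonneg_right h2 hR0.le)
    rw [← hMR, ← hMR, ← add_mul] at h3
    exact le_of_mul_le_mul_right h3 hR0) (by
    intro x hx h
    refine NUM x hx fun i j hij h1 h2 => ?_
    have h3 := h i j hij (by rw [hee]; exact h1) (by rw [hee]; exact h2)
    rw [hθ, hee] at h3
    exact h3)
  have hsumM : ∑ z, M z * R = ∑ β, ∑ u ∈ range R, f β u := by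
    rw [← Equiv.sum_comp σ (fun z => M z * R)]
    refine sum_congr rfl fun β _ => ?_
    rw [hMR, Equiv.symm_apply_apply]
  rw [← hsumM, ← sum_mul] at hsum
  have h5 : (1 / 4 + 1 / 500000 - εF) * B ≤ ∑ z, M z := by
    have h6 : ((1 / 4 + 1 / 500000 - εF) * B) * R ≤ (∑ z, M z) * R := by
      refine le_trans (le_of_eq ?_) hsum
      ring
    exact le_of_mul_le_mul_right h6 hR0
  have hPr : ((4 * 4 + 1 : ℕ) : ℝ) ^ T = P := by rw [hP]; push_cast; ring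
  have hBr : (B : ℝ) = P * 4 := by rw [hB]; push_cast; ring
  rw [hPr] at hT2
  rw [hBr] at h5
  have hP0 : (0 : ℝ) < P := by exact_mod_cast hP1
  have h7 : (1 / 4 + 1 / 500000 - εF) * 4 * P ≤ (1 + 7 / 10 ^ 6 + ((4 * 4 + 1 : ℕ) : ℝ) * ((4 : ℕ) : ℝ) / T) * P := by
    refine le_trans (le_of_eq ?_) (h5.trans hT2)
    ring
  have h8 := le_of_mul_le_mul_right h7 hP0
  have h9 : ((4 * 4 + 1 : ℕ) : ℝ) * ((4 : ℕ) : ℝ) / T ≤ 1 / 10 ^ 7 := by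
    rw [hT]
    norm_num
  linarith

end Pool.Agent.FK
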