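import Pool.Agent.helper19.SK.LOC
import Pool.Agent.helper19.HF.SpecE

/-!
# Project FK (MP_bf63dc_nt, rows `fk:*`): MORE THAN HALF IN EVERY LONG INTERVAL FOR EVERY CASE

GOAL (THEOREM FK). Let `F_i = s_i n + r_i`, `i < 4`, be linear forms without fixed prime divisor. Then some two `i ≠ j` are GOOD: with `a : b` = `s_j : s_i` in lowest terms, `c_ij = a r_i - b r_j`: there is `D ≥ 1` such that for every multiple `q` of `D`
at least `(1/2 + 3/10^6) M` of the terms of EVERY progression of `M ≥ M₀(q)` terms of step `q` which starts in the class of `c_ij` modulo `D` are true for `(a, b)`. So for EVERY case `(a, b, c)` of Q1 one of `T`, `T²`, `T³` (`T⁴` if `3 ∣ a - b`, `3 ∤ a b c`) is true for MORE THAN HALF of all `c'` in every long interval of every class near its constant.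

PROOF. Suppose that all six pairs are bad. `θ = 1/2 + 3/10^6`. As in the project SK (Pool/Agent/helper19/SK) take `17^T` far translates of the four forms, indexed by paths `π` with `T` digits in `Option (Fin 4 × Fin 4)`. For the level `l` and the pair `(i, j)` let `D = S_l L_ij` (moduli from the top level down, `SK.MODS`), `s = s_(l,ij)`, `γ` from EXZ (`Low`, `γ ≤ θ`):
there are long windows of step `s` of density `≤ γ + ε` and ALL windows of the steps `s r` starting in the class of `c_ij` modulo `D` have density `≥ γ - ε`. The translations `Δ(l, (i, j))` are chosen by GEZ (LOH) such that the windows of step `E` (a common multiple of all moduli) of length `(a + b) R` at `c_ij + L_ij (Δ + lower offsets)` have density `≤ γ + 4 (N + 1) ε`.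
FC (`B = 4 · 17^T` blocks, the block of `(π, i)` = the forms `F_i (n + n₀ + shift π) + E u`, `u < R`): functions of means `M(π, i)` with `∑ M ≥ (1/4 + 2/10^6 - ε) B`, almost complete. LRZ: `M(π, i) + M(π', j) ≤ γ + e ≤ θ + e` if `π, π'` are facing at the level `l` with the digits `(i, j)` and `none` and both are `≥ e`. TRH (star recursion with maxima):
`∑ M ≤ (1 + 7/10^6 + small) 17^T`: contradiction.

RULES as in Pool/Agent/helper19/HF/SpecA.lean. Row `XX`: file `Pool/Agent/<seat>/FK/XX.lean`, `import Pool.Agent.helper19.FK.Spec`, `namespace Pool.Agent.FK`, auxiliary lemmas prefixed `XX_`. No `convert`, no `congr!`, no `native_decide`, no straight double quotes, no `#` directly followed by a word of two or more lower case letters (write `s.card`).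
-/

set_option autoImplicit false

namespace Pool.Agent.FK

open Finset Pool.Agent.AT
open Pool.Agent.HF (cz Om)


/-- **TRH** (short-medium; pure; adaptation of Pool/Agent/helper19/SK/TRE.lean). `A_t(π, i)` = the maximum of `M (π', i)` over the `π'` with `π' l = π l` for all `l ≥ t` (digits above). `Φ_t = ∑_π ∑_i A_t(π, i)` is nondecreasing in `t`, `0 ≤ Φ_t ≤ P k`, `P = (k k + 1)^T`; so some `t < T` has `Φ_(t+1) - Φ_t ≤ P k/T`. Fix a `π`
and let `π[d]` be `π` with the digit `t` replaced by `d` (`Function.update`), `x_i = min_d A_t(π[d], i)`. For a bad pair `(i, j)` with `x_i, x_j ≥ e`: some `ρ` in the class of `π[some (i, j)]` (equal digits at levels `≥ t`) has `M (ρ, i) = A_t(π[some (i,j)], i) ≥ x_i ≥ e` and some `ρ'` in the class of `π[none]` has `M (ρ', j) ≥ x_j ≥ e`, so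
`x_i + x_j ≤ θ` (hypothesis with `l = t`). Hence `∑_i x_i ≤ V`. `A_(t+1)(π, i) = max_d A_t(π[d], i)`, so `A_(t+1)(π, i) ≤ x_i + ∑_d (A_(t+1)(π, i) - A_t(π[d], i))` (all terms are `≥ 0`, the term of the `d` of the minimum is what is needed). Sum over `i` and `π`: `∑_π ∑_d A_t(π[d], i) = (k k + 1) ∑_π A_t(π, i)`
(see the corresponding step of TRE), so `Φ_(t+1) ≤ P V + (k k + 1)(Φ_(t+1) - Φ_t) ≤ P V + (k k + 1) P k/T`. `∑_z M z = Φ_0 ≤ Φ_(t+1)`. -/
def TRH_stmt : Prop := ∀ (k T : ℕ) (θ e V : ℝ) (Bad : Fin k → Fin k → Prop) (M : Pool.Agent.SK.Path k T × Fin k → ℝ), 1 ≤ T → (∀ z, 0 ≤ M z ∧ M z ≤ 1) →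
  (∀ (l : Fin T) (i j : Fin k) (π π' : Pool.Agent.SK.Path k T), Bad i j → (∀ l' : Fin T, (l : ℕ) < l' → π l' = π' l') → π l = some (i, j) → π' l = none →
    e ≤ M (π, i) → e ≤ M (π', j) → M (π, i) + M (π', j) ≤ θ) →
  (∀ x : Fin k → ℝ, (∀ i, 0 ≤ x i ∧ x i ≤ 1) → (∀ i j, Bad i j → e ≤ x i → e ≤ x j → x i + x j ≤ θ) → ∑ i, x i ≤ V) →
  ∑ z, M z ≤ (V + ((k * k + 1 : ℕ) : ℝ) * k / T) * ((k * k + 1 : ℕ) : ℝ) ^ T

open Classical in
/-- **CLG** (short-medium; generalization of Pool/Agent/helper63/HF/CLZ.lean and of the row CLF of Pool/Agent/helper19/HF/SpecE.lean to `B` blocks of arbitrary forms). `k = n B`; `C, δ` from `Qk k`, `L ≥ 1` with `C R^(-δ) ≤ η` for `R ≥ L`. `F i = (range R).image (fm β)`, `(h, β) = finProdFinEquiv.symm i`, has `R` elements (injective);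
all tuples in the product are `Adm` by hypothesis, so by `Qk` at most `C R^k R^(-δ) ≤ η R^k` tuples have not `Many`. `ω ↦ (i ↦ fm β (ω h β))` is injective. `Many` gives the set `J` (CLZ_J of Pool/Agent/helper63/HF/CLZ.lean), and `PRT` gives `Pair` for two different forms of `J` (see the end of Pool/Agent/helper19/SK/MAIN.lean for both steps). -/
def CLG_stmt : Prop := (∀ k : ℕ, 1 ≤ k → Qk k) → ∀ (n B : ℕ) (η : ℝ), 1 ≤ n → 1 ≤ B → 0 < η → ∃ L : ℕ, ∀ R : ℕ, L ≤ R → ∀ fm : Fin B → ℕ → ℕ × ℤ,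
  (∀ β, Function.Injective (fm β)) → (∀ β u, 0 < (fm β u).1) → (∀ (β : Fin (n * B) → Fin B) (u : Fin (n * B) → ℕ), Adm fun i => fm (β i) (u i)) →
  (#{ω : Om n B R | ¬ ∃ J : Finset (Fin n × Fin B), (1 / 4 + 1 / 500000) * ((n : ℝ) * B) ≤ #J ∧
    ∀ x ∈ J, ∀ y ∈ J, x.2 ≠ y.2 → (fm x.2 ((ω x.1 x.2 : Fin R) : ℕ) ≠ fm y.2 ((ω y.1 y.2 : Fin R) : ℕ) →
      Pair (fm x.2 ((ω x.1 x.2 : Fin R) : ℕ)) (fm y.2 ((ω y.1 y.2 : Fin R) : ℕ)))} : ℝ) ≤ η * (R : ℝ) ^ (n * B)

/-- **LOS** (short-medium; from GEZ; adaptation of `LOC_step` in Pool/Agent/helper19/SK/LOC.lean). GEZ for `V Y = (S L ∣ Y - C)`, the step `q`, `s' = E`, `N`, `l₀`, `γ`, `ε`, the window length `(a + b) R` and the offsets `o = w - (E/q) b R` where `q w = L (low π - low π')` (`(k k + 1)^T (k k + 1)^T ≤ N` of them). `B` larger than all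
`|L (low π - low π') + E (a u - b u')|`, `u, u' < R`. `Y = C + S L m`, `Δ = S m`. -/
def LOS_stmt : Prop := ∀ (k T R q S E N l₀ : ℕ) (γ ε : ℝ), 0 < ε → 0 ≤ γ → γ ≤ 1 → 1 ≤ R → 1 ≤ q → 1 ≤ E → (k * k + 1) ^ T * (k * k + 1) ^ T ≤ N →
  ∀ (a b L : ℕ) (C : ℤ) (g : ℤ → Prop), 1 ≤ a → S * L ∣ q → q ∣ E → l₀ ≤ (a + b) * R →
  (∀ l : ℕ, ∃ Y : ℤ, ((S * L : ℕ) : ℤ) ∣ Y - C ∧ (cz g Y q l : ℝ) ≤ (γ + ε) * l) →
  (∀ l : ℕ, l₀ ≤ l → ∀ Y : ℤ, ((S * L : ℕ) : ℤ) ∣ Y - C → (γ - ε) * l ≤ cz g Y E l) →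
  ∀ low : Pool.Agent.SK.Path k T → ℤ, (∀ π, (q : ℤ) ∣ low π) →
  ∃ D : ℤ, (S : ℤ) ∣ D ∧ ∀ π π' : Pool.Agent.SK.Path k T,
    (∀ u < R, ∀ u' < R, C + L * (D + (low π - low π')) + (E : ℕ) * ((a : ℤ) * (u : ℕ) - b * (u' : ℕ)) ≠ 0) ∧
    (cz g (C + L * (D + (low π - low π')) - E * (b * R)) E ((a + b) * R) : ℝ) ≤ (γ + 4 * (N + 1) * ε) * ((a + b) * R)

end Pool.Agent.FK
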